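import Pool.Agent.Y374.RIG.Bricks

/-!
# An infinite semibrick without higher extensions over a gendo-symmetric algebra

Negative answer to Q1 and Q2 of MP_b2fb47_al in a stronger form: over every field of characteristic
zero there are a gendo-symmetric algebra `Γ` and ONE infinite sequence `X_0, X_1, X_2, …` of
finitely generated `Γ`-modules such that every non-zero homomorphism `X_m → X_n` is an
isomorphism with `m = n` (so the `X_n` are bricks, indecomposable, pairwise non-isomorphic and
`Hom`-orthogonal), and `Ext^i(X_m, X_n) = 0` for all `m`, `n` and all `i ≥ 1`.  In particular all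
finite direct sums of the `X_n` are rigid in all degrees and `o_k(Γ) = ∞` for all `k ≥ 1`.

The starting files `RigidUnbounded` and `GendoSymUnbounded` construct the algebra and the modules
and prove that there are rigid modules with arbitrarily many indecomposable summands.
-/

set_option autoImplicit false

namespace Pool.Agent.Results.MP_b2fb47_al.OrthogonalBricks

open CategoryTheory CategoryTheory.Abelian W450.Rig W881.GS

universe u

/-- Over every field `K` of characteristic zero there are a finite-dimensional, connected,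
non-semisimple, gendo-symmetric `K`-algebra `Γ` with `o_k(Γ) = ∞` for every `k ≥ 1`, and a sequence
`X` of non-zero finitely generated right `Γ`-modules such that every non-zero homomorphism
`X m ⟶ X n` is an isomorphism and occurs only for `m = n`, and `Ext^i (X m) (X n) = 0` for all
`m`, `n` and all `i ≥ 1`. -/
theorem result (K : Type u) [Field K] [CharZero K] :
    ∃ (Γ : Type u) (_ : Ring Γ) (_ : Algebra K Γ) (X : ℕ → ModuleCat.{u} Γᵐᵒᵖ),
      Module.Finite K Γ ∧ IsConnectedRing Γ ∧ ¬ IsSemisimpleRing Γ ∧ IsGendoSymmetric K Γ ∧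
      (∀ n : ℕ, Module.Finite Γᵐᵒᵖ (X n) ∧ Nontrivial (X n)) ∧
      (∀ (m n : ℕ) (φ : X m ⟶ X n), φ ≠ 0 → m = n ∧ IsIso φ) ∧
      (∀ m n i : ℕ, 1 ≤ i → Subsingleton (Ext (X m) (X n) i)) ∧
      (∀ k : ℕ, 1 ≤ k → oSize Γ k = ⊤) := by
  have hX : IsOrthFamily (Xfam K) := orth_family K (fun m n => green_irr K m n)
  have hc : IsConnectedRing (T2 (Alg K)) := t2_connected (alg_connected K)
  have hn : Nontrivial (T2 (Alg K)) := hc.1
  have hf : Module.Finite K (Alg K) := alg_finite K
  have hY := orth_embed (K := K) (A := Alg K) hX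
  obtain ⟨h1, h2⟩ := unbounded_of_family (Gam K (T2 (Alg K)))
    (fun n => ModuleCat.of (Gam K (T2 (Alg K)))ᵐᵒᵖ (Rs (rho K (Alg K)) (Xfam K n))) hY
  refine ⟨Gam K (T2 (Alg K)), inferInstance, inferInstance,
    fun n => ModuleCat.of (Gam K (T2 (Alg K)))ᵐᵒᵖ (Rs (rho K (Alg K)) (Xfam K n)),
    inferInstance, gam_connected hc, gam_not_semisimple, gam_gendo hc, fun n => ⟨hY.fin n, ?_⟩,
    fun m n φ hφ => ?_, fun m n i hi => hY.ext m n i hi, fun k _ => h2 k⟩
  · by_contra h
    rw [not_nontrivial_iff_subsingleton] at h
    exact (hY.indec n).1 (ModuleCat.isZero_iff_subsingleton.2 h)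
  · obtain ⟨h3, h4⟩ := Pool.Agent.Y374.RIG.fam_brick K m n
      (ModuleCat.ofHom (Rs.unmap rho_surjective φ.hom)) (fun h => hφ (by
        apply ModuleCat.hom_ext
        refine LinearMap.ext fun x => ?_
        exact LinearMap.congr_fun (congrArg ModuleCat.Hom.hom h) x))
    refine ⟨h3, ?_⟩
    have h5 : Function.Bijective φ := h4
    exact (ConcreteCategory.isIso_iff_bijective φ).2 h5

end Pool.Agent.Results.MP_b2fb47_al.OrthogonalBricks
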